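import Pool.Agent.Y386.IR.Stm

/-!
# IR-RES (job 11092, helper96): fractional chromatic number of C5[G], lower bound
-/

set_option autoImplicit false

namespace Pool.Agent.Y96.IR

open Pool.Agent.H692R2 Finset Pool.Agent.Y386.IR

theorem five : ∀ A : Finset (Fin 5), (∀ x ∈ A, x + 1 ∉ A) → A.card ≤ 2 := by
  decide +kernel

section

variable {V : Type} [Fintype V] (G : SimpleGraph V) (x : V → ℕ)

open Classical in
/-- the trace of a set of vertices in copy `i` -/
noncomputable def rr (i : Fin 5) (I : Finset (Σ p : Fin 5 × V, Fin (x p.2))) : Finset (Σ v : V, Fin (x v)) :=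
  Finset.univ.filter fun t => (⟨(i, t.1), t.2⟩ : Σ p : Fin 5 × V, Fin (x p.2)) ∈ I

theorem mem_rr (i : Fin 5) (I : Finset (Σ p : Fin 5 × V, Fin (x p.2))) (t : Σ v : V, Fin (x v)) :
    t ∈ rr x i I ↔ (⟨(i, t.1), t.2⟩ : Σ p : Fin 5 × V, Fin (x p.2)) ∈ I := by
  unfold rr
  simp

theorem rr_indep (i : Fin 5) (I : Finset (Σ p : Fin 5 × V, Fin (x p.2)))
    (h : (replicated (lex5 G) fun p => x p.2).IsIndepSet (I : Set _)) :
    (replicated G x).IsIndepSet (rr x i I : Set (Σ v : V, Fin (x v))) := by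
  intro s hs t ht hst hadj
  rw [Finset.mem_coe, mem_rr] at hs ht
  have hne : (⟨(i, s.1), s.2⟩ : Σ p : Fin 5 × V, Fin (x p.2)) ≠ ⟨(i, t.1), t.2⟩ := by
    intro h'
    apply hst
    obtain ⟨s1, s2⟩ := s
    obtain ⟨t1, t2⟩ := t
    simp only [Sigma.mk.injEq, Prod.mk.injEq, true_and] at h'
    obtain ⟨h1, h2⟩ := h'
    subst h1
    rw [eq_of_heq h2]
  refine h hs ht hne ?_
  rcases hadj with ⟨h1, _⟩ | h1
  · exact Or.inl ⟨congrArg (fun v => (i, v)) h1, hne⟩
  · exact Or.inr (Or.inl ⟨rfl, h1⟩)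

open Classical in
theorem count (I : Finset (Σ p : Fin 5 × V, Fin (x p.2)))
    (h : (replicated (lex5 G) fun p => x p.2).IsIndepSet (I : Set _)) :
    (Finset.univ.filter fun i : Fin 5 => (rr x i I).Nonempty).card ≤ 2 := by
  apply five
  intro i hi hi'
  rw [Finset.mem_filter] at hi hi'
  obtain ⟨s, hs⟩ := hi.2
  obtain ⟨t, ht⟩ := hi'.2
  rw [mem_rr] at hs ht
  have key : ∀ i : Fin 5, i ≠ i + 1 := by decide
  have hne : (⟨(i, s.1), s.2⟩ : Σ p : Fin 5 × V, Fin (x p.2)) ≠ ⟨(i + 1, t.1), t.2⟩ := by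
    intro h'
    have h1 := congrArg (fun q : Σ p : Fin 5 × V, Fin (x p.2) => q.1.1) h'
    exact key i h1
  exact h hs ht hne (Or.inr (Or.inr (Or.inl rfl)))

end

open Classical in
theorem t_RES : S_WFAM → S_RES := by
  intro hW V _ G x s ⟨w, hw0, hwI, hwc, hws⟩
  have h1 : ∀ i : Fin 5, fracChi (replicated G x) ≤
      ∑ I : Finset (Σ p : Fin 5 × V, Fin (x p.2)), if (rr x i I).Nonempty then w I else 0 := by
    intro i
    refine hW _ (Finset (Σ p : Fin 5 × V, Fin (x p.2))) (replicated G x)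
      (fun I => if (rr x i I).Nonempty then w I else 0) (fun I => rr x i I) ?_ ?_ ?_
    · intro I
      show 0 ≤ if (rr x i I).Nonempty then w I else 0
      split_ifs
      · exact hw0 I
      · exact le_rfl
    · intro I hI
      have hI' : (if (rr x i I).Nonempty then w I else 0) ≠ 0 := hI
      split_ifs at hI' with h2
      · exact rr_indep G x i I (hwI I hI')
      · exact absurd rfl hI'
    · intro t
      refine (hwc ⟨(i, t.1), t.2⟩).trans (le_of_eq ?_)
      refine Finset.sum_congr ?_ ?_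
      · ext I
        simp only [Finset.mem_filter, Finset.mem_univ, true_and, mem_rr]
      · intro I hI
        simp only [Finset.mem_filter, Finset.mem_univ, true_and] at hI
        exact (if_pos ⟨t, hI⟩).symm
  have h2 : ∑ i : Fin 5, fracChi (replicated G x) ≤ ∑ i : Fin 5,
      ∑ I : Finset (Σ p : Fin 5 × V, Fin (x p.2)), if (rr x i I).Nonempty then w I else 0 :=
    Finset.sum_le_sum fun i _ => h1 i
  rw [Finset.sum_comm] at h2
  have h3 : ∑ I : Finset (Σ p : Fin 5 × V, Fin (x p.2)), ∑ i : Fin 5,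
      (if (rr x i I).Nonempty then w I else 0) ≤
      ∑ I : Finset (Σ p : Fin 5 × V, Fin (x p.2)), 2 * w I := by
    refine Finset.sum_le_sum fun I _ => ?_
    rw [← Finset.sum_filter, Finset.sum_const, nsmul_eq_mul]
    by_cases hI : w I = 0
    · rw [hI]
      simp
    · refine mul_le_mul_of_nonneg_right ?_ (hw0 I)
      exact_mod_cast count G x I (hwI I hI)
  rw [← Finset.mul_sum, hws] at h3
  rw [Finset.sum_const, Finset.card_univ, Fintype.card_fin, nsmul_eq_mul] at h2
  have h4 := h2.trans h3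
  push_cast at h4
  linarith

end Pool.Agent.Y96.IR
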